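import Mathlib

/-!
# Project EC (helper295): MP_2a9600_co, distinct roots of edge cover polynomials

THEOREM. A connected simple graph `G` with minimum degree two, `G` not the triangle, has an edge
cover polynomial with at least three distinct complex roots.

Notation: `EE G` the edges, `m = (EE G).card`, `n = Fintype.card V`, `inc G v` the edges at `v`,
`dg G v` the degree, `covers G` the edge covering sets, `deg2 G` the vertices of degree two.

PROOF. Let `E(G,x) = Σ c_i x^i` have at most two roots. Then `E = x^s (x + b)^k`, `s + k = m`,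
`b k = m` (from `c_(m-1) = m`), `b` an integer, and `2 c_(m-2) = m (m - b)` (PolyShape). As
`c_(m-2) = C(m,2) - a`, `a = |deg2|`, we get `2 a = m (b - 1)`; `a ≤ n ≤ m` gives `b ≤ 3`, and
`b ≥ 2` as `s ≥ 1`. Tutte-Berge (`Pool.Agent.Run7.h175.TB`) gives either an edge cover with fewer
than `s` edges (contradiction) or a barrier `(W, F)`: `F` a family of disjoint odd sets outside `W`,
each closed up to `W`, with `|F| ≥ |W| + l + 2`.
* `b = 3`: `G` is 2-regular, `l = k - 2`: impossible unless `n = 3` (Reg3).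
* `b = 2`: `a = s = k = m / 2`, `l = m - n - 2`; if `m ≥ n + 2` the barrier has `W ≠ ∅`, and the
  count Local + Sizes shows that `W` is independent and that the members of `F` are single
  vertices of degree two or triangles joined to `W` by one edge; then the sets of edges that cover
  `V - W` are `3 ^ (m / 2)` in number, and not all of them cover `W`, so `|covers G| < 3^(m/2)`,
  while `E(G,1) = 3 ^ (m / 2)`. If `m ≤ n + 1` then `n = 5`, `m = 6` and `|covers G| ≤ 26` (Five).
-/

namespace Run7.h295.EC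

open Finset Polynomial

section Defs

variable {V : Type} [Fintype V]

open Classical in
/-- the edges -/
noncomputable def EE (G : SimpleGraph V) : Finset (Sym2 V) :=
  Finset.univ.filter (fun e => e ∈ G.edgeSet)

open Classical in
/-- the edges at `v` -/
noncomputable def inc (G : SimpleGraph V) (v : V) : Finset (Sym2 V) :=
  (EE G).filter (fun e => v ∈ e)

/-- the degree -/
noncomputable def dg (G : SimpleGraph V) (v : V) : ℕ := (inc G v).card

open Classical in
/-- the edge covering sets -/
noncomputable def covers (G : SimpleGraph V) : Finset (Finset (Sym2 V)) :=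
  (EE G).powerset.filter (fun S => ∀ v, ∃ e ∈ S, v ∈ e)

open Classical in
/-- the number of edge covering sets with `i` edges -/
noncomputable def ec (G : SimpleGraph V) (i : ℕ) : ℕ :=
  ((covers G).filter (fun S => S.card = i)).card

open Classical in
/-- the vertices of degree two -/
noncomputable def deg2 (G : SimpleGraph V) : Finset V := Finset.univ.filter (fun v => dg G v = 2)

open Classical in
/-- the edges with both ends in `X` -/
noncomputable def ins (G : SimpleGraph V) (X : Finset V) : Finset (Sym2 V) :=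
  (EE G).filter (fun e => ∀ v ∈ e, v ∈ X)

open Classical in
/-- the edges with one end in `X` and one end in `Y` (used for disjoint `X`, `Y`) -/
noncomputable def btw (G : SimpleGraph V) (X Y : Finset V) : Finset (Sym2 V) :=
  (EE G).filter (fun e => ∃ x ∈ X, ∃ y ∈ Y, e = s(x, y))

/-- `F` is a family of pairwise disjoint odd sets outside `W`, closed up to `W` -/
def Barrier (G : SimpleGraph V) (W : Finset V) (F : Finset (Finset V)) : Prop :=
  (∀ O ∈ F, Odd O.card) ∧ (∀ O ∈ F, ∀ O' ∈ F, O ≠ O' → Disjoint O O') ∧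
  (∀ O ∈ F, Disjoint O W) ∧ (∀ O ∈ F, ∀ x ∈ O, ∀ y, G.Adj x y → y ∈ O ∨ y ∈ W)

end Defs

/-! ## The pieces (all independent; write `theorem t_NAME : S_NAME` in your own file
`Pool/Agent/Run7/<you>/EC/NAME.lean`, `import Pool.Agent.Run7.h295.EC.Iface`) -/

/-- POLY (no graphs). PROOF. Let `P` be the polynomial; it is monic of degree `m` (`c m = 1`), so
`P.roots` has `m` elements with multiplicity (`IsAlgClosed.card_roots_eq_natDegree` or `splits`),
`0` is a root. If all roots are `0` then `P = X^m`, but `c (m-1) = m ≥ 2`, contradiction. So there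
is exactly one other root `r`, and `P = X^s (X - r)^k` with `s, k ≥ 1`, `s + k = m`
(`Polynomial.prod_multiset_X_sub_C_of_monic_of_roots_card_eq`, the multiset is
`replicate s 0 + replicate k r`). Put `β = -r`. The coefficient of `X^(m-1)` is `k β = m`, so
`β = m/k`; the coefficient of `X^s` is `β^k = c s`, so `c s * k^k = m^k` in `ℕ`, `k^k ∣ m^k`,
`k ∣ m` (`Nat.pow_dvd_pow_iff`), `β = b` natural. The coefficient of `X^(m-2)` is
`C(k,2) b^2`, twice this is `k (k-1) b^2 = m (m - b)`. Evaluate at `1`: `Σ c_i = (1 + b)^k`.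
(Instead of the coefficients of the product one may use `(X + β)^k = Σ C(k,j) β^(k-j) X^j`,
`Polynomial.coeff_X_add_C_pow` and `coeff_X_pow_mul'`.) -/
def S_POLY : Prop :=
  ∀ (m : ℕ) (c : ℕ → ℕ), 2 ≤ m → c 0 = 0 → c m = 1 → c (m - 1) = m →
    (∑ i ∈ Finset.range (m + 1), Polynomial.C (c i : ℂ) * Polynomial.X ^ i).roots.toFinset.card
      ≤ 2 →
    ∃ s k b : ℕ, 1 ≤ s ∧ 1 ≤ k ∧ s + k = m ∧ b * k = m ∧ (∀ i < s, c i = 0) ∧
      2 * c (m - 2) = m * (m - b) ∧ (∑ i ∈ Finset.range (m + 1), c i) = (1 + b) ^ k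

/-- TOP. The three top coefficients. PROOF. `S ↦ EE G \ S` is a bijection from the covers to the
sets `T ⊆ EE G` which contain no `inc G v`. Since all `inc G v` have at least two elements, `∅` and
all `m` singletons are such sets; a two-element set `T` contains `inc G v` iff `T = inc G v`
and `v` has degree two. The map `v ↦ inc G v` is injective on the vertices of degree two: if
`inc G v = inc G w`, `v ≠ w`, then each of the two edges contains `v` and `w`, so both are
`s(v,w)`. So exactly `|deg2 G|` of the `C(m,2)` two-element sets are excluded. -/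
def S_TOP : Prop :=
  ∀ (V : Type) [Fintype V] (G : SimpleGraph V), Nonempty V → (∀ v, 2 ≤ dg G v) →
    ec G (EE G).card = 1 ∧ ec G ((EE G).card - 1) = (EE G).card ∧
      ec G ((EE G).card - 2) + (deg2 G).card = (EE G).card.choose 2

/-- HAND. Degree sum over a set. PROOF. Count the pairs `(v, e)`, `v ∈ X`, `v ∈ e ∈ EE G`: an edge
has two ends in `X` (then it is in `ins G X`), one (`btw G X Xᶜ`) or none. -/
def S_HAND : Prop :=
  ∀ (V : Type) [Fintype V] [DecidableEq V] (G : SimpleGraph V) (X : Finset V),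
    ∑ v ∈ X, dg G v = 2 * (ins G X).card + (btw G X Xᶜ).card

/-- MC. A matching with at most `l` uncovered vertices gives a small edge cover. PROOF. Choose for
each `u ∈ U` an edge `g u` at `u` (`1 ≤ dg G u`) and take
`S = {s(x, μ x) : x ∉ U} ∪ {g u : u ∈ U}`. The first part has at most `(n - |U|) / 2` elements
(each edge is counted for `x` and for `μ x ≠ x`), the second at most `|U|`. So
`2 |S| ≤ n - |U| + 2 |U| ≤ n + l`. -/
def S_MC : Prop :=
  ∀ (V : Type) [Fintype V] (G : SimpleGraph V) (l : ℕ) (U : Finset V) (μ : V → V),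
    (∀ v, 1 ≤ dg G v) → U.card ≤ l →
    (∀ x, x ∉ U → μ x ∉ U ∧ μ (μ x) = x ∧ G.Adj x (μ x)) →
    ∃ S ∈ covers G, 2 * S.card ≤ Fintype.card V + l

/-- BAR (uses MC). PROOF. Apply `Run7.h175.tutte_berge` (file `Pool/Agent/Run7/h175/TB.lean`) with
`T = univ`. If its condition holds, we get `U, μ` as in MC. Otherwise there are `W` and `F` with
`Barrier G W F` and `|F| ≥ |W| + l + 1`. Let `R = (W ∪ ⋃ F)ᶜ`. If `R` has an odd number of elements,
then `insert R F` is a barrier family as well (`R` is closed up to `W`, because the sets of `F` are),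
and it has at least `|W| + l + 2` members. If `|R|` is even then `n ≡ |W| + |F| (mod 2)`, so with
`n + l` even `|F| ≠ |W| + l + 1`. -/
def S_BAR : Prop :=
  ∀ (V : Type) [Fintype V] [DecidableEq V] (G : SimpleGraph V) (l : ℕ), (∀ v, 1 ≤ dg G v) →
    Even (Fintype.card V + l) →
    (∃ S ∈ covers G, 2 * S.card ≤ Fintype.card V + l) ∨
      ∃ (W : Finset V) (F : Finset (Finset V)), Barrier G W F ∧ W.card + l + 2 ≤ F.card

/-- LOC (uses HAND). Here `m - n ≤ |F| - |W|` is written without subtraction.
PROOF. Put `ξ(X) = Σ_(v ∈ X) (dg v - 2) ≥ 0` and `β(O) = |btw G O W|`, `R = (W ∪ ⋃ F)ᶜ`.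
For `O ∈ F`: `Σ_(v ∈ O) dg v = 2 |ins O| + β(O)` (HAND; all edges leaving `O` go to `W`).
`β(O) ≥ 1` because `G` is connected and `O ≠ V` (`W ≠ ∅`). If `β(O) = 1` then `ξ(O)` is odd, so
`ξ(O) ≥ 1`. Hence `ξ(O) + β(O) ≥ 2` always. Sum over `V`:
`2 m - 2 n = ξ(V) = Σ_O ξ(O) + ξ(R) + ξ(W)`, and `ξ(W) = 2 |ins W| + |btw W Wᶜ| - 2 |W|`,
`|btw W Wᶜ| = Σ_O β(O) + |btw R W|`. So `2 |F| ≥ 2 |W| + 2 m - 2 n` says
`2 |F| ≥ Σ_O (ξ(O) + β(O)) + ξ(R) + 2 |ins W| + |btw R W|`, and everything is an equality:
`ξ(O) + β(O) = 2` for all `O`, `ins W = ∅`, `btw R W = ∅`; then `R = ∅` by connectivity (no edge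
leaves `R`, since the sets in `F` are closed up to `W`). Conclusion (2) is `ξ(O) + β(O) = 2`. -/
def S_LOC : Prop :=
  ∀ (V : Type) [Fintype V] [DecidableEq V] (G : SimpleGraph V) (W : Finset V)
    (F : Finset (Finset V)), G.Connected → (∀ v, 2 ≤ dg G v) → Barrier G W F → W.Nonempty →
    W.card + (EE G).card ≤ F.card + Fintype.card V →
    ins G W = ∅ ∧
    (∀ O ∈ F, 1 ≤ (btw G O W).card ∧ ∑ v ∈ O, dg G v + (btw G O W).card = 2 * O.card + 2) ∧
    (∀ v, v ∉ W → ∃ O ∈ F, v ∈ O) ∧
    F.card + Fintype.card V = W.card + (EE G).card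

/-- SIZ (uses HAND and LOC). PROOF. By LOC each `O ∈ F` has `(ξ, β) = (0, 2)` or `(1, 1)`.
`|ins O| + β(O) = |O| + 1` in both cases (HAND: `2 |ins O| + β = Σ dg = 2 |O| + 2 - β`). As
`ins W = ∅` the edge set is the disjoint union of `ins O ∪ btw O W`, so `m = Σ_O (|O| + 1)`.
Type `(0,2)`: all vertices of `O` have degree two. Type `(1,1)`: exactly one vertex of `O` has
degree three, the others degree two; then `|O| ≥ 3` (`|O|` is odd, and `|O| = 1` would mean
`Σ dg = 3 = β`). So with `a = |deg2|`:
`0 = 2 a - m = Σ_(0,2) (2|O| - |O| - 1) + Σ_(1,1) (2(|O| - 1) - |O| - 1) + 2 |W ∩ deg2|`, i.e.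
`Σ_(0,2) (|O| - 1) + Σ_(1,1) (|O| - 3) + 2 |W ∩ deg2| = 0`, and all terms vanish. Type `(0,2)`:
`|O| = 1`, `β = 2`, `ins O = ∅`. Type `(1,1)`: `|O| = 3`, `β = 1`, `|ins O| = 3`. The last
conclusion is `m = Σ_O (|O| + 1)` = 2 (number of singletons) + 4 (number of triples). -/
def S_SIZ : Prop :=
  ∀ (V : Type) [Fintype V] [DecidableEq V] (G : SimpleGraph V) (W : Finset V)
    (F : Finset (Finset V)), G.Connected → (∀ v, 2 ≤ dg G v) → Barrier G W F → W.Nonempty →
    W.card + (EE G).card ≤ F.card + Fintype.card V → 2 * (deg2 G).card = (EE G).card →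
    (∀ O ∈ F, (O.card = 1 ∧ (ins G O).card = 0 ∧ (btw G O W).card = 2) ∨
      (O.card = 3 ∧ (ins G O).card = 3 ∧ (btw G O W).card = 1)) ∧
    (deg2 G).card = ∑ O ∈ F, (if O.card = 1 then 1 else 2)

/-- TRI. PROOF. `O = {x, y, z}`, the three edges inside are `xy`, `yz`, `zx`, the edge to `W` is
`zw` (say). A set `X` of these four edges covers `O` iff it has at least three elements (5 sets) or
is `{xy, yz}`, `{yz, zx}`, `{zx, xy}` or `{xy, zw}`: 9 sets. Proof of `≤ 9`: 16 subsets, and the
empty set, the four singletons, `{xz, zw}` (misses `y`) and `{yz, zw}` (misses `x`) do not cover. -/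
def S_TRI : Prop :=
  ∀ (V : Type) [Fintype V] [DecidableEq V] (G : SimpleGraph V) (W O : Finset V), Disjoint O W →
    O.card = 3 → (ins G O).card = 3 → (btw G O W).card = 1 →
    ((ins G O ∪ btw G O W).powerset.filter (fun X => ∀ v ∈ O, ∃ e ∈ X, v ∈ e)).card ≤ 9

/-- SMALL. The same for a single vertex: 3 of the 4 sets. -/
def S_SMALL : Prop :=
  ∀ (V : Type) [Fintype V] [DecidableEq V] (G : SimpleGraph V) (W O : Finset V), Disjoint O W →
    O.card = 1 → (ins G O).card = 0 → (btw G O W).card = 2 →
    ((ins G O ∪ btw G O W).powerset.filter (fun X => ∀ v ∈ O, ∃ e ∈ X, v ∈ e)).card ≤ 3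

/-- CNT. PROOF. Let `𝓛` be the set of all `S ⊆ EE G` that cover every vertex outside `W`.
The map `S ↦ (O ↦ S ∩ (ins G O ∪ btw G O W))` on `𝓛` is injective (every edge has an end outside
`W`, since `ins G W = ∅`, this end is in some `O ∈ F`, and the other end is in `O` or in `W`), and its
value at `O` is one of at most `N O` sets (every edge at `v ∈ O` is in `ins G O ∪ btw G O W`). So
`|𝓛| ≤ Π_(O ∈ F) N O` (`Finset.card_le_card_of_injOn` into `F.attach.pi` or `Fintype.piFinset`).
`covers G ⊆ 𝓛`, and for `w ∈ W` the set `EE G \ inc G w` is in `𝓛` (a vertex `v ∉ W` has at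
least two edges, and only one of them can contain `w`) but does not cover `w`. -/
def S_CNT : Prop :=
  ∀ (V : Type) [Fintype V] [DecidableEq V] (G : SimpleGraph V) (W : Finset V)
    (F : Finset (Finset V)) (N : Finset V → ℕ), (∀ v, 2 ≤ dg G v) → Barrier G W F → W.Nonempty →
    ins G W = ∅ → (∀ v, v ∉ W → ∃ O ∈ F, v ∈ O) →
    (∀ O ∈ F, ((ins G O ∪ btw G O W).powerset.filter
      (fun X => ∀ v ∈ O, ∃ e ∈ X, v ∈ e)).card ≤ N O) →
    (covers G).card < ∏ O ∈ F, N O

/-- REG (uses BAR, LOC, HAND). Two-regular graphs. PROOF. `m = n = 3 k`, `k ≥ 2`. Apply BAR with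
`l = k - 2`: either a cover with `2 |S| ≤ 4 k - 2`, or a barrier with `|F| ≥ |W| + k`. If `W = ∅`
then every `O ∈ F` is nonempty and closed, so `O = V` by connectivity and `|F| ≤ 1 < k`.
If `W ≠ ∅`, LOC applies (`m = n`) and its last conclusion is `|F| = |W|`, contradiction. -/
def S_REG : Prop :=
  ∀ (V : Type) [Fintype V] [DecidableEq V] (G : SimpleGraph V) (k : ℕ), G.Connected →
    (∀ v, 2 ≤ dg G v) → 2 ≤ k → Fintype.card V = 3 * k → (EE G).card = 3 * k →
    ∃ S ∈ covers G, S.card < 2 * k

/-- FIVE. Graphs with five vertices, three of degree two, two of degree three.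
PROOF. Let `u`, `v` be the vertices of degree three. If `u`, `v` are not adjacent, all six edges join
`{u, v}` to the other three vertices, and `G = K_{2,3}`: the covers of the three other vertices are
`3^3 = 27` sets, and the set of the edges at `u` does not cover `v`. If `uv` is an edge, the degree
sum shows that exactly one edge `bc` has both ends of degree two; the third vertex `a` of degree
two is adjacent to `u` and `v`, and `b ~ u`, `c ~ v` (after renaming). The six edges are
`uv, ua, va, ub, bc, cv`; a cover corresponds to 6 Booleans with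
`(ua ∨ va) ∧ (ub ∨ bc) ∧ (bc ∨ cv) ∧ (uv ∨ ua ∨ ub) ∧ (uv ∨ va ∨ cv)`, which has 26 solutions
(`decide` on `Fin 6 → Bool`). It is enough to find the six edges and the five stars. (Another way: a
bijection `V ≃ Fin 5`, and `decide` on a bit-encoded list of edges.) -/
def S_FIVE : Prop :=
  ∀ (V : Type) [Fintype V] [DecidableEq V] (G : SimpleGraph V), Fintype.card V = 5 →
    (EE G).card = 6 → (∀ v, 2 ≤ dg G v) → (deg2 G).card = 3 →
    (covers G).card ≤ 26

end Run7.h295.EC
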