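import Mathlib
import Pool.Agent.Run7.h295.EC.Iface

namespace Run7.h295.EC

open Finset

variable {V : Type} [Fintype V]

lemma mem_EE (G : SimpleGraph V) (e : Sym2 V) : e ∈ EE G ↔ e ∈ G.edgeSet := by
  simp [EE]

lemma mem_ins (G : SimpleGraph V) (X : Finset V) (e : Sym2 V) :
    e ∈ ins G X ↔ e ∈ G.edgeSet ∧ ∀ v ∈ e, v ∈ X := by
  simp [ins, mem_EE]

lemma mem_btw (G : SimpleGraph V) (X Y : Finset V) (e : Sym2 V) :
    e ∈ btw G X Y ↔ e ∈ G.edgeSet ∧ ∃ x ∈ X, ∃ y ∈ Y, e = s(x, y) := by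
  simp [btw, mem_EE]

lemma mem_btw' (G : SimpleGraph V) (X Y : Finset V) (x y : V) (hx : x ∈ X) (hy : y ∈ Y)
    (h : G.Adj x y) : s(x, y) ∈ btw G X Y := by
  rw [mem_btw]
  exact ⟨h, x, hx, y, hy, rfl⟩

lemma conn_cut {G : SimpleGraph V} (hc : G.Connected) (X : Finset V) (hX : X.Nonempty)
    {w : V} (hw : w ∉ X) : ∃ x ∈ X, ∃ y, y ∉ X ∧ G.Adj x y := by
  obtain ⟨x, hx⟩ := hX
  obtain ⟨p⟩ := hc.preconnected x w
  obtain ⟨d, -, h1, h2⟩ := p.exists_boundary_dart (X : Set V) (by simpa using hx) (by simpa using hw)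
  exact ⟨d.fst, by simpa using h1, d.snd, by simpa using h2, d.adj⟩

lemma edge_rep {G : SimpleGraph V} {e : Sym2 V} (he : e ∈ G.edgeSet) :
    ∃ x y, e = s(x, y) ∧ G.Adj x y := by
  induction e using Sym2.ind with
  | _ x y => exact ⟨x, y, rfl, he⟩

theorem t_LOC (hH : S_HAND) : S_LOC := by
  classical
  intro V _ _ G W F hconn hdeg hB hW hineq
  obtain ⟨hodd, hdis, hdW, hclos⟩ := hB
  have hH' := hH V G
  obtain ⟨w, hw⟩ := hW
  set R : Finset V := (W ∪ F.biUnion id)ᶜ with hR
  have hnotR : ∀ x, x ∉ R → x ∈ W ∨ ∃ O ∈ F, x ∈ O := by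
    intro x hx
    rw [hR, Finset.mem_compl, not_not, Finset.mem_union, Finset.mem_biUnion] at hx
    simpa using hx
  have hinR : ∀ x, x ∈ R → x ∉ W ∧ ∀ O ∈ F, x ∉ O := by
    intro x hx
    rw [hR, Finset.mem_compl, Finset.mem_union, Finset.mem_biUnion] at hx
    push Not at hx
    exact ⟨hx.1, fun O hO => hx.2 O hO⟩
  have hWF : Disjoint W (F.biUnion id) := by
    rw [Finset.disjoint_biUnion_right]
    intro O hO
    exact (hdW O hO).symm
  have hpd : (F : Set (Finset V)).PairwiseDisjoint id := fun O hO O' hO' hne => hdis O hO O' hO' hne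
  have htotal : Fintype.card V = W.card + ∑ O ∈ F, O.card + R.card := by
    have h1 : (F.biUnion id).card = ∑ O ∈ F, O.card := by
      rw [Finset.card_biUnion]
      · simp
      · intro O hO O' hO' hne
        exact hdis O hO O' hO' hne
    have h3 := Finset.card_add_card_compl (W ∪ F.biUnion id)
    rw [Finset.card_union_of_disjoint hWF, h1, ← hR] at h3
    omega
  have hsum : ∀ f : V → ℕ, ∑ v, f v = ∑ v ∈ W, f v + ∑ O ∈ F, ∑ v ∈ O, f v + ∑ v ∈ R, f v := by
    intro f
    rw [← Finset.sum_add_sum_compl (W ∪ F.biUnion id) f, ← hR, Finset.sum_union hWF,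
      Finset.sum_biUnion hpd]
    rfl
  -- the edges leaving `R`
  have hRleave : ∀ x ∈ R, ∀ y, y ∉ R → G.Adj x y → y ∈ W := by
    intro x hx y hy hxy
    rcases hnotR y hy with h | ⟨O, hO, hyO⟩
    · exact h
    · rcases hclos O hO y hyO x hxy.symm with h | h
      · exact absurd h ((hinR x hx).2 O hO)
      · exact absurd h (hinR x hx).1
  have hOleave : ∀ O ∈ F, btw G O Oᶜ = btw G O W := by
    intro O hO
    ext e
    rw [mem_btw, mem_btw]
    constructor
    · rintro ⟨he, x, hx, y, hy, rfl⟩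
      refine ⟨he, x, hx, y, ?_, rfl⟩
      rcases hclos O hO x hx y he with h | h
      · exact absurd h (Finset.mem_compl.1 hy)
      · exact h
    · rintro ⟨he, x, hx, y, hy, rfl⟩
      refine ⟨he, x, hx, y, ?_, rfl⟩
      rw [Finset.mem_compl]
      intro hyO
      exact (Finset.disjoint_left.1 (hdW O hO)) hyO hy
  have hβ1 : ∀ O ∈ F, 1 ≤ (btw G O W).card := by
    intro O hO
    have hne : O.Nonempty := Finset.card_pos.1 (hodd O hO).pos
    obtain ⟨x, hx, y, hy, hxy⟩ := conn_cut hconn O hne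
      (fun h => (Finset.disjoint_left.1 (hdW O hO)) h hw)
    have hyW : y ∈ W := (hclos O hO x hx y hxy).resolve_left hy
    exact Finset.card_pos.2 ⟨_, mem_btw' G O W x y hx hyW hxy⟩
  have hge : ∀ X : Finset V, 2 * X.card ≤ ∑ v ∈ X, dg G v := by
    intro X
    calc 2 * X.card = ∑ v ∈ X, 2 := by simp [mul_comm]
      _ ≤ _ := Finset.sum_le_sum (fun v _ => hdeg v)
  have hO2 : ∀ O ∈ F, 2 * O.card + 2 ≤ ∑ v ∈ O, dg G v + (btw G O W).card := by
    intro O hO
    have h1 := hH' O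
    rw [hOleave O hO] at h1
    have h2 := hge O
    have h3 := hβ1 O hO
    omega
  -- the edges between `W` and the rest
  have hbW : ∑ O ∈ F, (btw G O W).card + (btw G R W).card ≤ (btw G W Wᶜ).card := by
    have hd1 : ∀ O ∈ F, ∀ O' ∈ F, O ≠ O' → Disjoint (btw G O W) (btw G O' W) := by
      intro O hO O' hO' hne
      rw [Finset.disjoint_left]
      intro e he he'
      rw [mem_btw] at he he'
      obtain ⟨-, x, hx, y, hy, rfl⟩ := he
      obtain ⟨-, x', hx', y', hy', h⟩ := he'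
      rw [Sym2.eq_iff] at h
      rcases h with ⟨rfl, rfl⟩ | ⟨rfl, rfl⟩
      · exact (Finset.disjoint_left.1 (hdis O hO O' hO' hne)) hx hx'
      · exact (Finset.disjoint_left.1 (hdW O hO)) hx hy'
    have hd2 : Disjoint (F.biUnion (fun O => btw G O W)) (btw G R W) := by
      rw [Finset.disjoint_biUnion_left]
      intro O hO
      rw [Finset.disjoint_left]
      intro e he he'
      rw [mem_btw] at he he'
      obtain ⟨-, x, hx, y, hy, rfl⟩ := he
      obtain ⟨-, x', hx', y', hy', h⟩ := he'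
      rw [Sym2.eq_iff] at h
      rcases h with ⟨rfl, rfl⟩ | ⟨rfl, rfl⟩
      · exact (hinR _ hx').2 O hO hx
      · exact (hinR _ hx').1 hy
    rw [← Finset.card_biUnion (fun O hO O' hO' hne => hd1 O hO O' hO' hne),
      ← Finset.card_union_of_disjoint hd2]
    apply Finset.card_le_card
    intro e he
    rw [Finset.mem_union, Finset.mem_biUnion] at he
    rw [mem_btw]
    rcases he with ⟨O, hO, he⟩ | he
    · rw [mem_btw] at he
      obtain ⟨he, x, hx, y, hy, rfl⟩ := he
      refine ⟨he, y, hy, x, ?_, Sym2.eq_swap⟩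
      rw [Finset.mem_compl]
      exact fun h => (Finset.disjoint_left.1 (hdW O hO)) hx h
    · rw [mem_btw] at he
      obtain ⟨he, x, hx, y, hy, rfl⟩ := he
      refine ⟨he, y, hy, x, ?_, Sym2.eq_swap⟩
      rw [Finset.mem_compl]
      exact (hinR x hx).1
  have htot2 : ∑ v, dg G v = 2 * (EE G).card := by
    have h := hH' Finset.univ
    have e1 : ins G Finset.univ = EE G := by
      ext e; rw [mem_ins, mem_EE]; simp
    have e2 : btw G (Finset.univ : Finset V) (Finset.univ)ᶜ = ∅ := by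
      rw [Finset.eq_empty_iff_forall_notMem]
      intro e he
      rw [mem_btw] at he
      obtain ⟨-, x, -, y, hy, -⟩ := he
      simp at hy
    rw [e1, e2] at h
    simpa using h
  have hWs := hH' W
  have hS := hsum (dg G)
  have hAB : 2 * (∑ O ∈ F, O.card) + 2 * F.card ≤
      ∑ O ∈ F, ∑ v ∈ O, dg G v + ∑ O ∈ F, (btw G O W).card := by
    have h := Finset.sum_le_sum hO2
    rw [Finset.sum_add_distrib, Finset.sum_add_distrib, ← Finset.mul_sum] at h
    simpa [mul_comm] using h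
  have hRge := hge R
  have hinsW : (ins G W).card = 0 := by omega
  have hbR : (btw G R W).card = 0 := by omega
  have hABeq : 2 * (∑ O ∈ F, O.card) + 2 * F.card =
      ∑ O ∈ F, ∑ v ∈ O, dg G v + ∑ O ∈ F, (btw G O W).card := by omega
  refine ⟨Finset.card_eq_zero.1 hinsW, ?_, ?_, ?_⟩
  · intro O hO
    refine ⟨hβ1 O hO, ?_⟩
    have h : ∑ O ∈ F, (2 * O.card + 2) = ∑ O ∈ F, (∑ v ∈ O, dg G v + (btw G O W).card) := by
      rw [Finset.sum_add_distrib, Finset.sum_add_distrib, ← Finset.mul_sum, ← hABeq]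
      simp [mul_comm]
    have := (Finset.sum_eq_sum_iff_of_le hO2).1 h O hO
    omega
  · intro v hv
    by_contra hcon
    push Not at hcon
    have hvR : v ∈ R := by
      by_contra hvR
      rcases hnotR v hvR with h | ⟨O, hO, hvO⟩
      · exact hv h
      · exact hcon O hO hvO
    obtain ⟨x, hx, y, hy, hxy⟩ := conn_cut hconn R ⟨v, hvR⟩ (w := w) (fun h => (hinR w h).1 hw)
    have hyW := hRleave x hx y hy hxy
    have : 0 < (btw G R W).card := Finset.card_pos.2 ⟨_, mem_btw' G R W x y hx hyW hxy⟩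
    omega
  · omega

end Run7.h295.EC
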