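import Mathlib
import Pool.Agent.Run7.h295.EC.Iface
import Pool.Agent.Run7.h295.EC.LOC

namespace Run7.h295.EC

open Finset Polynomial

/-- the edge cover polynomial -/
noncomputable def ecPoly {V : Type} [Fintype V] (G : SimpleGraph V) : ℂ[X] :=
  ∑ i ∈ Finset.range ((EE G).card + 1), Polynomial.C (ec G i : ℂ) * Polynomial.X ^ i

lemma ec_zero_of_lt {V : Type} [Fintype V] (G : SimpleGraph V) [Nonempty V] : ec G 0 = 0 := by
  classical
  rw [ec, Finset.card_eq_zero, Finset.eq_empty_iff_forall_notMem]
  intro S hS
  rw [Finset.mem_filter, covers, Finset.mem_filter, Finset.card_eq_zero] at hS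
  obtain ⟨⟨-, h⟩, rfl⟩ := hS
  obtain ⟨v⟩ := (inferInstance : Nonempty V)
  obtain ⟨e, he, -⟩ := h v
  simp at he

lemma sum_ec {V : Type} [Fintype V] (G : SimpleGraph V) :
    ∑ i ∈ Finset.range ((EE G).card + 1), ec G i = (covers G).card := by
  classical
  unfold ec
  rw [← Finset.card_biUnion]
  · congr 1
    ext S
    simp only [Finset.mem_biUnion, Finset.mem_range, Finset.mem_filter]
    constructor
    · rintro ⟨i, -, h, -⟩; exact h
    · intro h
      refine ⟨S.card, ?_, h, rfl⟩
      rw [covers, Finset.mem_filter, Finset.mem_powerset] at h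
      exact Nat.lt_succ_of_le (Finset.card_le_card h.1)
  · intro i _ j _ hij
    change Disjoint _ _
    rw [Finset.disjoint_left]
    intro S hS hS'
    rw [Finset.mem_filter] at hS hS'
    exact hij (hS.2.symm.trans hS'.2)

lemma ec_pos {V : Type} [Fintype V] (G : SimpleGraph V) {S : Finset (Sym2 V)}
    (hS : S ∈ covers G) : ec G S.card ≠ 0 := by
  classical
  have h : S ∈ (covers G).filter (fun T => T.card = S.card) := Finset.mem_filter.2 ⟨hS, rfl⟩
  have h2 := (Finset.card_pos.2 ⟨S, h⟩).ne'
  unfold ec
  convert h2

theorem main (hPOLY : S_POLY) (hTOP : S_TOP) (hH : S_HAND) (hBAR : S_BAR) (hLOC : S_LOC)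
    (hSIZ : S_SIZ) (hTRI : S_TRI) (hSMALL : S_SMALL) (hCNT : S_CNT) (hREG : S_REG)
    (hFIVE : S_FIVE) (V : Type) [Fintype V] (G : SimpleGraph V) (hconn : G.Connected)
    (hdeg : ∀ v, 2 ≤ dg G v) (h3 : Fintype.card V ≠ 3) :
    3 ≤ (ecPoly G).roots.toFinset.card := by
  classical
  by_contra hlt
  have hle : (ecPoly G).roots.toFinset.card ≤ 2 := by omega
  have hne : Nonempty V := hconn.nonempty
  obtain ⟨v0⟩ := hne
  have hne : Nonempty V := ⟨v0⟩
  have hm2 : 2 ≤ (EE G).card := by
    refine le_trans (hdeg v0) ?_
    exact Finset.card_le_card (Finset.filter_subset _ _)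
  obtain ⟨hT1, hT2, hT3⟩ := hTOP V G hne hdeg
  obtain ⟨s, k, b, hs, hk, hsk, hbk, hlow, hc2, hsum⟩ :=
    hPOLY (EE G).card (ec G) hm2 (ec_zero_of_lt G) hT1 hT2 hle
  rw [sum_ec] at hsum
  set m := (EE G).card with hm
  set n := Fintype.card V with hn
  -- degree sum
  have hH' := hH V G
  have hdsum : ∑ v, dg G v = 2 * m := by
    have h := hH' Finset.univ
    have e1 : ins G Finset.univ = EE G := by
      ext e; rw [mem_ins, mem_EE]; simp
    have e2 : btw G (Finset.univ : Finset V) (Finset.univ)ᶜ = ∅ := by
      rw [Finset.eq_empty_iff_forall_notMem]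
      intro e he
      rw [mem_btw] at he
      obtain ⟨-, x, -, y, hy, -⟩ := he
      simp at hy
    rw [e1, e2] at h
    simpa using h
  have hnm : n ≤ m := by
    have : 2 * n ≤ ∑ v, dg G v := by
      calc 2 * n = ∑ v : V, 2 := by simp [mul_comm, hn]
        _ ≤ _ := Finset.sum_le_sum (fun v _ => hdeg v)
    omega
  -- number of vertices of degree two
  have ha : 2 * (deg2 G).card = m * (b - 1) := by
    have h1 : 2 * m.choose 2 = m * (m - 1) := by
      rw [Nat.choose_two_right, Nat.mul_div_cancel']
      exact (Nat.even_mul_pred_self m).two_dvd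
    have hbm : b ≤ m := by
      rw [← hbk]; exact Nat.le_mul_of_pos_right b hk
    have hb1 : 1 ≤ b := by
      rcases Nat.eq_zero_or_pos b with h | h
      · rw [h] at hbk; omega
      · exact h
    have h2 : 2 * ec G (m - 2) + 2 * (deg2 G).card = m * (m - 1) := by
      rw [← h1, ← hT3]; ring
    rw [hc2] at h2
    have h4 : m * (m - 1) = m * (m - b) + m * (b - 1) := by
      rw [← Nat.mul_add]; congr 1; omega
    omega
  have han : (deg2 G).card ≤ n := Finset.card_le_univ _
  have hb2 : 2 ≤ b := by
    rcases Nat.lt_or_ge b 2 with h | h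
    · interval_cases b <;> omega
    · exact h
  have hb3 : b ≤ 3 := by
    by_contra hcon
    have h4 : 3 ≤ b - 1 := by omega
    have : m * 3 ≤ m * (b - 1) := Nat.mul_le_mul_left m h4
    omega
  have hdeg1 : ∀ v, 1 ≤ dg G v := fun v => le_trans (by norm_num) (hdeg v)
  have hn3 : 3 ≤ n := by
    have h1 : m ≤ n.choose 2 := by
      have h := SimpleGraph.card_edgeFinset_le_card_choose_two (G := G)
      have e : G.edgeFinset = EE G := by
        ext e; rw [mem_EE, SimpleGraph.mem_edgeFinset]
      rw [e] at h
      exact h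
    have h0 : 1 ≤ n := Fintype.card_pos
    by_contra hcon
    have : n = 1 ∨ n = 2 := by omega
    rcases this with h | h
    · rw [h] at h1; norm_num at h1; omega
    · rw [h] at h1; norm_num at h1; omega
  have hcl : ∀ (F : Finset (Finset V)), Barrier G ∅ F → F.card ≤ 1 := by
    intro F hB
    rw [Finset.card_le_one]
    have key : ∀ O ∈ F, O = Finset.univ := by
      intro O hO
      rw [Finset.eq_univ_iff_forall]
      by_contra hcon
      push Not at hcon
      obtain ⟨w, hw⟩ := hcon
      obtain ⟨x, hx, y, hy, hxy⟩ := conn_cut hconn O (Finset.card_pos.1 (hB.1 O hO).pos) hw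
      rcases hB.2.2.2 O hO x hx y hxy with h | h
      · exact hy h
      · simp at h
    intro O hO O' hO'
    rw [key O hO, key O' hO']
  rcases Nat.lt_or_ge b 3 with hb | hb
  · -- b = 2
    have hb : b = 2 := by omega
    subst hb
    have h2a : 2 * (deg2 G).card = m := by simpa using ha
    have hak : (deg2 G).card = k := by omega
    have hsk2 : s = k := by omega
    by_cases hmn : n + 2 ≤ m
    · rcases hBAR V G (m - n - 2) hdeg1 ⟨k - 1, by rw [← hn]; omega⟩ with ⟨S, hS, hSc⟩ | ⟨W, F, hB, hF⟩
      · have h1 := hlow S.card (by omega)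
        exact ec_pos G hS h1
      · by_cases hW : W = ∅
        · subst hW
          have := hcl F hB
          simp at hF
          omega
        · have hW' := Finset.nonempty_iff_ne_empty.2 hW
          have hineq : W.card + (EE G).card ≤ F.card + Fintype.card V := by
            rw [← hm, ← hn]; omega
          obtain ⟨hins, -, hcov, -⟩ := hLOC V G W F hconn hdeg hB hW' hineq
          obtain ⟨hO, hdc⟩ := hSIZ V G W F hconn hdeg hB hW' hineq (by rw [← hm]; exact h2a)
          have hlt := hCNT V G W F (fun O => if O.card = 1 then 3 else 9) hdeg hB hW' hins hcov (by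
            intro O hOF
            rcases hO O hOF with ⟨c1, c2, c3⟩ | ⟨c1, c2, c3⟩
            · simp only [c1, if_true]
              exact hSMALL V G W O (hB.2.2.1 O hOF) c1 c2 c3
            · have : ¬ O.card = 1 := by omega
              simp only [this, if_false]
              exact hTRI V G W O (hB.2.2.1 O hOF) c1 c2 c3)
          have hprod : ∏ O ∈ F, (if O.card = 1 then 3 else 9) = 3 ^ (deg2 G).card := by
            rw [hdc, ← Finset.prod_pow_eq_pow_sum]
            apply Finset.prod_congr rfl
            intro O _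
            split_ifs <;> norm_num
          rw [hprod, hsum, hak] at hlt
          norm_num at hlt
    · -- five vertices
      have hge : 3 * n ≤ 2 * m + (deg2 G).card := by
        rw [← hdsum]
        have : (deg2 G).card = ∑ v : V, (if dg G v = 2 then 1 else 0) := by
          rw [deg2, Finset.card_filter]
        rw [this, ← Finset.sum_add_distrib]
        calc 3 * n = ∑ v : V, 3 := by simp [mul_comm, hn]
          _ ≤ _ := Finset.sum_le_sum (fun v _ => by
            have := hdeg v
            split_ifs <;> omega)
      have hn5 : n = 3 ∨ n = 4 ∨ n = 5 := by omega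
      rcases hn5 with h | h | h
      · exact h3 h
      · omega
      · have hm6 : m = 6 := by omega
        have := hFIVE V G h hm6 hdeg (by omega)
        have hk3 : k = 3 := by omega
        rw [hsum, hk3] at this
        norm_num at this
  · -- b = 3
    have hb : b = 3 := by omega
    subst hb
    have : (deg2 G).card = m := by omega
    have hmn : m = n := by omega
    have hk2 : 2 ≤ k := by omega
    obtain ⟨S, hS, hSc⟩ := hREG V G k hconn hdeg hk2 (by rw [← hn]; omega) (by rw [← hm]; omega)
    exact ec_pos G hS (hlow S.card (by omega))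

end Run7.h295.EC
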