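import Mathlib
import Pool.Agent.Run7.h175.TB
import Pool.Agent.Run7.h295.EC.Iface

namespace Run7.h295.EC

open Finset

theorem t_BAR (hMC : S_MC) : S_BAR := by
  classical
  intro V _ _ G l hdeg heven
  by_cases hcond : ∀ (A : Finset V) (F : Finset (Finset V)), A ⊆ Finset.univ → (∀ O ∈ F, Odd O.card) →
      (∀ O ∈ F, ∀ O' ∈ F, O ≠ O' → Disjoint O O') → (∀ O ∈ F, O ⊆ Finset.univ \ A) →
      (∀ O ∈ F, ∀ x ∈ O, ∀ y ∈ (Finset.univ : Finset V), G.Adj x y → y ∈ O ∨ y ∈ A) →
      F.card ≤ A.card + l
  · left
    obtain ⟨U, μ, -, hU, hμ⟩ := Run7.h175.tutte_berge G Finset.univ l (by simpa using heven) hcond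
    obtain ⟨S, hS, hc⟩ := hMC V G l U μ hdeg hU (fun x hx => by
      have := hμ x (by simp [hx])
      exact ⟨by simpa using this.1, this.2.1, this.2.2⟩)
    exact ⟨S, hS, hc⟩
  · right
    push Not at hcond
    obtain ⟨W, F, -, hodd, hdis, hsub, hclos, hcard⟩ := hcond
    have hdW : ∀ O ∈ F, Disjoint O W := by
      intro O hO
      have := hsub O hO
      rw [Finset.disjoint_left]
      intro x hx hxW
      have := this hx
      simp [hxW] at this
    set R : Finset V := (W ∪ F.biUnion id)ᶜ with hR
    have hnotR : ∀ x, x ∉ R → x ∈ W ∨ ∃ O ∈ F, x ∈ O := by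
      intro x hx
      rw [hR, Finset.mem_compl, not_not, Finset.mem_union, Finset.mem_biUnion] at hx
      simpa using hx
    have hinR : ∀ x, x ∈ R → x ∉ W ∧ ∀ O ∈ F, x ∉ O := by
      intro x hx
      rw [hR, Finset.mem_compl, Finset.mem_union, Finset.mem_biUnion] at hx
      push Not at hx
      exact ⟨hx.1, fun O hO => hx.2 O hO⟩
    have htotal : Fintype.card V = W.card + ∑ O ∈ F, O.card + R.card := by
      have h1 : (F.biUnion id).card = ∑ O ∈ F, O.card := by
        rw [Finset.card_biUnion]
        · simp
        · intro O hO O' hO' hne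
          exact hdis O hO O' hO' hne
      have h2 : Disjoint W (F.biUnion id) := by
        rw [Finset.disjoint_biUnion_right]
        intro O hO
        exact (hdW O hO).symm
      have h3 := Finset.card_add_card_compl (W ∪ F.biUnion id)
      rw [Finset.card_union_of_disjoint h2, h1, ← hR] at h3
      omega
    have hmod : ∀ F' : Finset (Finset V), (∀ O ∈ F', Odd O.card) →
        (∑ O ∈ F', O.card) % 2 = F'.card % 2 := by
      intro F'
      induction F' using Finset.induction_on with
      | empty => simp
      | insert O F'' hO ih =>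
        intro h
        rw [Finset.sum_insert hO, Finset.card_insert_of_notMem hO]
        have h1 := ih (fun O' hO' => h O' (Finset.mem_insert_of_mem hO'))
        have h2 := Nat.odd_iff.1 (h O (Finset.mem_insert_self _ _))
        omega
    have hm := hmod F hodd
    obtain ⟨q, hq⟩ := heven
    by_cases hRodd : Odd R.card
    · refine ⟨W, insert R F, ⟨?_, ?_, ?_, ?_⟩, ?_⟩
      · intro O hO
        rcases Finset.mem_insert.1 hO with rfl | hO
        · exact hRodd
        · exact hodd O hO
      · intro O hO O' hO' hne
        rcases Finset.mem_insert.1 hO with rfl | hO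
        · rcases Finset.mem_insert.1 hO' with rfl | hO'
          · exact absurd rfl hne
          · rw [Finset.disjoint_left]; intro x hx hx'; exact (hinR x hx).2 O' hO' hx'
        · rcases Finset.mem_insert.1 hO' with rfl | hO'
          · rw [Finset.disjoint_right]; intro x hx hx'; exact (hinR x hx).2 O hO hx'
          · exact hdis O hO O' hO' hne
      · intro O hO
        rcases Finset.mem_insert.1 hO with rfl | hO
        · rw [Finset.disjoint_left]; intro x hx hx'; exact (hinR x hx).1 hx'
        · exact hdW O hO
      · intro O hO x hx y hxy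
        rcases Finset.mem_insert.1 hO with rfl | hO
        · by_cases hy : y ∈ R
          · exact Or.inl hy
          · rcases hnotR y hy with h | ⟨O', hO', hyO'⟩
            · exact Or.inr h
            · rcases hclos O' hO' y hyO' x (Finset.mem_univ _) hxy.symm with h | h
              · exact absurd h ((hinR x hx).2 O' hO')
              · exact absurd h (hinR x hx).1
        · exact hclos O hO x hx y (Finset.mem_univ _) hxy
      · rw [Finset.card_insert_of_notMem]
        · omega
        · intro hRF
          have hpos : 0 < R.card := hRodd.pos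
          obtain ⟨x, hx⟩ := Finset.card_pos.1 hpos
          exact (hinR x hx).2 R hRF hx
    · have hRe := Nat.not_odd_iff.1 hRodd
      refine ⟨W, F, ⟨hodd, hdis, hdW, fun O hO x hx y hxy => hclos O hO x hx y (Finset.mem_univ _) hxy⟩, ?_⟩
      omega

end Run7.h295.EC
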