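import Mathlib
import Pool.Agent.Run7.h295.EC.ASM
import Pool.Agent.Run7.h295.EC.BAR
import Pool.Agent.Run7.h547.EC.TOP
import Pool.Agent.Run7.h547.EC.SIZ
import Pool.Agent.Run7.h547.EC.FIVE
import Pool.Agent.Run7.h24.EC.MC
import Pool.Agent.Run7.h24.EC.CNT
import Pool.Agent.Run7.h24.EC.POLY
import Pool.Agent.Run7.h593.EC.HAND
import Pool.Agent.Run7.h593.EC.TRI
import Pool.Agent.Run7.h593.EC.REG

namespace Run7.h295.EC

theorem final (V : Type) [Fintype V] (G : SimpleGraph V) (hconn : G.Connected)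
    (hdeg : ∀ v, 2 ≤ dg G v) (h3 : Fintype.card V ≠ 3) :
    3 ≤ (ecPoly G).roots.toFinset.card := by
  have hH : S_HAND := Run7.h593.EC.t_HAND
  have hBAR : S_BAR := t_BAR Run7.h24.EC.t_MC
  have hLOC : S_LOC := t_LOC hH
  exact main Run7.h24.EC.t_POLY Run7.h547.EC.t_TOP hH hBAR hLOC (Run7.h547.EC.t_SIZ hH hLOC)
    Run7.h593.EC.t_TRI Run7.h593.EC.t_SMALL Run7.h24.EC.t_CNT (Run7.h593.EC.t_REG hBAR hLOC)
    Run7.h547.EC.t_FIVE V G hconn hdeg h3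

end Run7.h295.EC
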